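import Pool.Agent.Helper17.SA.St4

/-!
# Project SA (MP_21f9f3), module AUO: automorphisms of odd order of `A_5, A_6, A_8` are inner
-/

set_option autoImplicit false

namespace Pool.Agent.Helper24.SA

open Equiv Pool.Agent.Helper17.SA

theorem typ3 {m : ℕ} (g : Perm (Fin m)) (hg : orderOf g = 3) :
    ∃ k, g.cycleType = Multiset.replicate (k + 1) 3 ∧ 3 * (k + 1) ≤ m := by
  obtain ⟨k, hk⟩ := Perm.cycleType_prime_order (σ := g) (by rw [hg]; exact Nat.prime_three)
  rw [hg] at hk
  refine ⟨k, hk, ?_⟩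
  have := Perm.sum_cycleType_le g
  rw [hk] at this
  simp at this
  omega

theorem ord3 {m : ℕ} (φ : MulAut (alternatingGroup (Fin m))) (a : alternatingGroup (Fin m))
    (ha : orderOf (a : Perm (Fin m)) = 3) : orderOf (φ a : Perm (Fin m)) = 3 := by
  rw [Subgroup.orderOf_coe, MulEquiv.orderOf_eq, ← Subgroup.orderOf_coe]
  exact ha

/-- permutations of type `(3, 3)` in `A_6` are conjugate in `A_6` -/
theorem conj33 (x y : alternatingGroup (Fin 6))
    (hx : (x : Perm (Fin 6)).cycleType = Multiset.replicate 2 3)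
    (hy : (y : Perm (Fin 6)).cycleType = Multiset.replicate 2 3) : IsConj x y := by
  have h : IsConj (x : Perm (Fin 6)) (y : Perm (Fin 6)) :=
    Perm.isConj_iff_cycleType_eq.mpr (hx.trans hy.symm)
  obtain ⟨g, hg⟩ := isConj_iff.mp h
  have hc : ¬ Subgroup.centralizer {(x : Perm (Fin 6))} ≤ alternatingGroup (Fin 6) := by
    intro hle
    have := (Perm.centralizer_le_alternating_iff.mp hle).2.2 3
    rw [hx, Multiset.count_replicate_self] at this
    omega
  obtain ⟨z, hz, hz'⟩ := SetLike.not_le_iff_exists.mp hc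
  rw [Subgroup.mem_centralizer_singleton_iff] at hz
  rw [Perm.mem_alternatingGroup] at hz'
  rcases Int.units_eq_one_or (Perm.sign g) with hs | hs
  · exact isConj_iff.mpr ⟨⟨g, Perm.mem_alternatingGroup.mpr hs⟩, Subtype.ext hg⟩
  · have hzs : Perm.sign z = -1 := (Int.units_eq_one_or (Perm.sign z)).resolve_left hz'
    refine isConj_iff.mpr ⟨⟨g * z, Perm.mem_alternatingGroup.mpr ?_⟩, Subtype.ext ?_⟩
    · rw [Perm.sign_mul, hs, hzs]
      decide
    · show g * z * (x : Perm (Fin 6)) * (g * z)⁻¹ = y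
      rw [mul_inv_rev, mul_assoc g z, hz, ← hg]
      group

theorem pres6 (φ : MulAut (alternatingGroup (Fin 6))) (N : ℕ) (hN : Odd N) (hφ : φ ^ N = 1)
    (a : alternatingGroup (Fin 6)) (ha : (a : Perm (Fin 6)).IsThreeCycle) :
    (φ a : Perm (Fin 6)).IsThreeCycle := by
  -- the dichotomy
  have dich : ∀ x : alternatingGroup (Fin 6), orderOf (x : Perm (Fin 6)) = 3 →
      (x : Perm (Fin 6)).IsThreeCycle ∨
        (x : Perm (Fin 6)).cycleType = Multiset.replicate 2 3 := by
    intro x hx
    obtain ⟨k, hk, hle⟩ := typ3 _ hx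
    rcases k with _ | _ | k
    · left
      show (x : Perm (Fin 6)).cycleType = {3}
      rw [hk]
      simp
    · right
      exact hk
    · omega
  have hTT : ∀ x y : alternatingGroup (Fin 6), (x : Perm (Fin 6)).IsThreeCycle →
      (y : Perm (Fin 6)).IsThreeCycle → IsConj x y := fun x y hx hy =>
    alternatingGroup.isThreeCycle_isConj (by simp) hx hy
  have hcT : ∀ x y : alternatingGroup (Fin 6), IsConj x y → (x : Perm (Fin 6)).IsThreeCycle →
      (y : Perm (Fin 6)).IsThreeCycle := by
    intro x y h hx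
    have h2 : IsConj (x : Perm (Fin 6)) (y : Perm (Fin 6)) :=
      (alternatingGroup (Fin 6)).subtype.map_isConj h
    have h3 := Perm.isConj_iff_cycleType_eq.mp h2
    show (y : Perm (Fin 6)).cycleType = {3}
    rw [← h3]
    exact hx
  have hcU : ∀ x y : alternatingGroup (Fin 6), IsConj x y →
      (x : Perm (Fin 6)).cycleType = Multiset.replicate 2 3 →
      (y : Perm (Fin 6)).cycleType = Multiset.replicate 2 3 := by
    intro x y h hx
    have h2 : IsConj (x : Perm (Fin 6)) (y : Perm (Fin 6)) :=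
      (alternatingGroup (Fin 6)).subtype.map_isConj h
    rw [← Perm.isConj_iff_cycleType_eq.mp h2]
    exact hx
  have hmap : ∀ x y : alternatingGroup (Fin 6), IsConj x y → IsConj (φ x) (φ y) := fun x y h =>
    φ.toMonoidHom.map_isConj h
  by_contra hcon
  have h1 : (φ a : Perm (Fin 6)).cycleType = Multiset.replicate 2 3 :=
    (dich (φ a) (ord3 φ a ha.orderOf)).resolve_left hcon
  have h1o : orderOf (φ a : Perm (Fin 6)) = 3 := ord3 φ a ha.orderOf
  rcases dich (φ (φ a)) (ord3 φ _ h1o) with h2 | h2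
  · -- `φ ^ 2` preserves the three-cycles
    have hpow : ∀ k : ℕ, (((φ ^ (2 * k)) a : alternatingGroup (Fin 6)) : Perm (Fin 6)).IsThreeCycle := by
      intro k
      induction k with
      | zero => exact ha
      | succ n ih =>
        have e : (φ ^ (2 * (n + 1))) a = φ (φ ((φ ^ (2 * n)) a)) := by
          rw [show 2 * (n + 1) = 1 + (1 + 2 * n) by ring, pow_add, pow_add, pow_one]
          rfl
        rw [e]
        exact hcT _ _ (hmap _ _ (hmap _ _ (hTT a _ ha ih))) h2
    obtain ⟨j, hj⟩ := hN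
    have e : (φ ^ (2 * (j + 1))) a = φ a := by
      rw [show 2 * (j + 1) = 1 + N by omega, pow_add, hφ, pow_one, mul_one]
    have := hpow (j + 1)
    rw [e] at this
    exact hcon this
  · have hpow : ∀ k : ℕ, (((φ ^ (k + 1)) a : alternatingGroup (Fin 6)) : Perm (Fin 6)).cycleType =
        Multiset.replicate 2 3 := by
      intro k
      induction k with
      | zero =>
        rw [zero_add, pow_one]
        exact h1
      | succ n ih =>
        have e : (φ ^ (n + 1 + 1)) a = φ ((φ ^ (n + 1)) a) := by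
          rw [show n + 1 + 1 = 1 + (n + 1) by ring, pow_add, pow_one]
          rfl
        rw [e]
        exact hcU _ _ (hmap _ _ (conj33 (φ a) _ h1 ih)) h2
    obtain ⟨j, hj⟩ := hN
    have := hpow (2 * j)
    rw [← hj, hφ] at this
    have h3 : (a : Perm (Fin 6)).cycleType = {3} := ha
    have h4 : (a : Perm (Fin 6)).cycleType = Multiset.replicate 2 3 := this
    rw [h3] at h4
    have := congrArg Multiset.card h4
    simp at this

theorem pres5 (φ : MulAut (alternatingGroup (Fin 5)))
    (a : alternatingGroup (Fin 5)) (ha : (a : Perm (Fin 5)).IsThreeCycle) :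
    (φ a : Perm (Fin 5)).IsThreeCycle := by
  obtain ⟨k, hk, hle⟩ := typ3 _ (ord3 φ a ha.orderOf)
  rcases k with _ | k
  · show (φ a : Perm (Fin 5)).cycleType = {3}
    rw [hk]
    simp
  · omega

/-- the centralizer of `A_m` in `S_m` is trivial -/
theorem cent_triv {m : ℕ} (hm : 5 ≤ m) (z : Perm (Fin m))
    (hz : ∀ a : alternatingGroup (Fin m), z * a = a * z) : z = 1 := by
  have pick : ∀ s : Finset (Fin m), s.card ≤ 3 → ∃ v, v ∉ s := by
    intro s hs
    obtain ⟨v, _, hv⟩ := Finset.exists_mem_notMem_of_card_lt_card (s := s)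
      (t := (Finset.univ : Finset (Fin m))) (by rw [Finset.card_univ, Fintype.card_fin]; omega)
    exact ⟨v, hv⟩
  ext x
  by_contra hx
  have hx' : z x ≠ x := fun h => hx (by rw [h]; rfl)
  obtain ⟨w, hw⟩ := pick {x, z x} (by
    exact (Finset.card_le_two).trans (by norm_num))
  obtain ⟨v, hv⟩ := pick {x, z x, w} Finset.card_le_three
  simp only [Finset.mem_insert, Finset.mem_singleton, not_or] at hw hv
  have h3 : (swap x w * swap x v).IsThreeCycle :=
    Perm.isThreeCycle_swap_mul_swap_same (Ne.symm hw.1) (Ne.symm hv.1) (Ne.symm hv.2.2)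
  have h := congrArg (fun g : Perm (Fin m) => g x) (hz ⟨_, h3.mem_alternatingGroup⟩)
  simp only [Perm.mul_apply] at h
  rw [swap_apply_left, swap_apply_of_ne_of_ne hv.1 hv.2.2,
    swap_apply_of_ne_of_ne hx' (Ne.symm hv.2.1), swap_apply_of_ne_of_ne hx' (Ne.symm hw.2)] at h
  exact hv.1 (z.injective h)

theorem conj_inj {m : ℕ} (hm : 5 ≤ m) :
    Function.Injective (MulAut.conj : alternatingGroup (Fin m) →* _) := by
  rw [injective_iff_map_eq_one]
  intro a ha
  have hc : a ∈ Subgroup.center (alternatingGroup (Fin m)) := by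
    rw [Subgroup.mem_center_iff]
    intro g
    have h := congrArg (fun f : MulAut (alternatingGroup (Fin m)) => f g) ha
    simp only [MulAut.conj_apply, MulAut.one_apply] at h
    calc g * a = a * g * a⁻¹ * a := by rw [h]
      _ = a * g := by group
  rw [alternatingGroup.center_eq_bot (by simp; omega)] at hc
  exact Subgroup.mem_bot.mp hc

theorem inner_of_odd (hAU1 : StAU1) (hAUG : StAUG) (m : ℕ) (hm : m = 5 ∨ m = 6 ∨ m = 8)
    (φ : MulAut (alternatingGroup (Fin m))) (N : ℕ) (hN : Odd N) (hφ : φ ^ N = 1) :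
    ∃ a : alternatingGroup (Fin m), φ = MulAut.conj a := by
  have hm5 : 5 ≤ m := by omega
  have hpres : ∀ a : alternatingGroup (Fin m), (a : Perm (Fin m)).IsThreeCycle →
      (φ a : Perm (Fin m)).IsThreeCycle := by
    rcases hm with rfl | rfl | rfl
    · exact fun a ha => pres5 φ a ha
    · exact fun a ha => pres6 φ N hN hφ a ha
    · exact fun a ha => hAU1 8 φ (by norm_num) a ha
  obtain ⟨τ, hτ⟩ := hAUG m φ hm5 hpres
  have hpow : ∀ (k : ℕ) (a : alternatingGroup (Fin m)),
      (((φ ^ k) a : alternatingGroup (Fin m)) : Perm (Fin m)) = τ ^ k * a * (τ ^ k)⁻¹ := by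
    intro k
    induction k with
    | zero => intro a; simp
    | succ n ih =>
      intro a
      have e : (φ ^ (n + 1)) a = φ ((φ ^ n) a) := by
        rw [add_comm, pow_add, pow_one]
        rfl
      rw [e, hτ, ih, add_comm n 1, pow_add, pow_one]
      group
  have hz : τ ^ N = 1 := by
    apply cent_triv hm5
    intro a
    have h := hpow N a
    rw [hφ] at h
    have h2 : (a : Perm (Fin m)) = τ ^ N * a * (τ ^ N)⁻¹ := h
    calc τ ^ N * (a : Perm (Fin m)) = τ ^ N * a * (τ ^ N)⁻¹ * τ ^ N := by group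
      _ = a * τ ^ N := by rw [← h2]
  have hs : Perm.sign τ = 1 := by
    have h := congrArg Perm.sign hz
    rw [map_pow, map_one] at h
    rcases Int.units_eq_one_or (Perm.sign τ) with h1 | h1
    · exact h1
    · rw [h1, hN.neg_one_pow] at h
      exact absurd h (by decide)
  refine ⟨⟨τ, Perm.mem_alternatingGroup.mpr hs⟩, ?_⟩
  ext1 a
  apply Subtype.ext
  rw [hτ]
  rfl

theorem pAUO : StAU1 → StAUG → StAUO := by
  intro hAU1 hAUG m hm q hq hq2 T hT
  have hm5 : 5 ≤ m := by omega
  refine ⟨T.comap MulAut.conj, hT.comap_of_injective _ (conj_inj hm5), ?_⟩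
  intro t
  constructor
  · intro ht
    obtain ⟨k, hk⟩ := hT ⟨t, ht⟩
    have hk' : t ^ q ^ k = 1 := congrArg Subtype.val hk
    have hodd : Odd (q ^ k) := (hq.odd_of_ne_two hq2).pow
    obtain ⟨a, ha⟩ := inner_of_odd hAU1 hAUG m hm t _ hodd hk'
    exact ⟨a, by rw [Subgroup.mem_comap, ← ha]; exact ht, ha⟩
  · rintro ⟨a, ha, rfl⟩
    exact ha

end Pool.Agent.Helper24.SA
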